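import Pool.Agent.H705.FP.Stm2

/-! # Mean square of an exponential sum over a unit interval -/

set_option autoImplicit false

namespace Pool.Agent.H176.FP

open MeasureTheory ProbabilityTheory Filter Topology Finset
open Pool.Agent.H705.FP

/-- the weighted integrals -/
noncomputable def JJ (c l r : ℝ) : ℝ := ∫ y in c - 1..c + 1, (1 - |y - c|) * Real.cos (l * y + r)

lemma F_cont (a β γ : ℕ → ℝ) (s : Finset ℕ) : Continuous fun y : ℝ => ∑ n ∈ s, wv a β γ n y := by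
  unfold wv
  exact continuous_finsetSum _ fun n _ => by fun_prop

lemma step1 (F : ℝ → ℝ) (hF : Continuous F) (T : ℝ) :
    ∫ y in T..T + 1, F y ^ 2 ≤
      2 * ∫ y in T + 1 / 2 - 1..T + 1 / 2 + 1, (1 - |y - (T + 1 / 2)|) * F y ^ 2 := by
  rw [← intervalIntegral.integral_const_mul]
  have hcc : Continuous fun y : ℝ => 2 * ((1 - |y - (T + 1 / 2)|) * F y ^ 2) := by fun_prop
  have h1 : ∫ y in T..T + 1, F y ^ 2 ≤
      ∫ y in T..T + 1, 2 * ((1 - |y - (T + 1 / 2)|) * F y ^ 2) := by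
    refine intervalIntegral.integral_mono_on (by linarith) ?_ ?_ fun y hy => ?_
    · exact (hF.pow 2).intervalIntegrable _ _
    · exact hcc.intervalIntegrable _ _
    · have h2 : |y - (T + 1 / 2)| ≤ 1 / 2 := by
        rw [abs_le]; constructor <;> linarith [hy.1, hy.2]
      have h3 := mul_nonneg (sub_nonneg.2 h2) (sq_nonneg (F y))
      linarith only [h3]
  refine h1.trans ?_
  refine intervalIntegral.integral_mono_interval (by linarith) (by linarith) (by linarith) ?_ ?_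
  · refine (ae_restrict_iff' measurableSet_Ioc).2 (ae_of_all _ fun y hy => ?_)
    have h2 : |y - (T + 1 / 2)| ≤ 1 := by
      rw [abs_le]; constructor <;> linarith [hy.1, hy.2]
    have h3 := mul_nonneg (sub_nonneg.2 h2) (sq_nonneg (F y))
    simp only [Pi.zero_apply]
    linarith only [h3]
  · exact hcc.intervalIntegrable _ _

lemma step2 (a β γ : ℕ → ℝ) (s : Finset ℕ) (c : ℝ) :
    ∫ y in c - 1..c + 1, (1 - |y - c|) * (∑ n ∈ s, wv a β γ n y) ^ 2 =
      ∑ m ∈ s, ∑ n ∈ s, a m * a n / 2 *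
        (JJ c (γ m - γ n) (β m - β n) + JJ c (γ m + γ n) (β m + β n)) := by
  have e : ∀ y : ℝ, (1 - |y - c|) * (∑ n ∈ s, wv a β γ n y) ^ 2 = ∑ m ∈ s, ∑ n ∈ s,
      a m * a n / 2 * ((1 - |y - c|) * Real.cos ((γ m - γ n) * y + (β m - β n)) +
        (1 - |y - c|) * Real.cos ((γ m + γ n) * y + (β m + β n))) := by
    intro y
    rw [sq, Finset.sum_mul_sum, Finset.mul_sum]
    refine Finset.sum_congr rfl fun m _ => ?_
    rw [Finset.mul_sum]
    refine Finset.sum_congr rfl fun n _ => ?_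
    have h1 : (γ m - γ n) * y + (β m - β n) = (γ m * y + β m) - (γ n * y + β n) := by ring
    have h2 : (γ m + γ n) * y + (β m + β n) = (γ m * y + β m) + (γ n * y + β n) := by ring
    rw [h1, h2, Real.cos_sub (γ m * y + β m), Real.cos_add (γ m * y + β m)]
    unfold wv
    ring
  have hcont : ∀ l r : ℝ, Continuous fun y : ℝ => (1 - |y - c|) * Real.cos (l * y + r) := by
    intro l r; fun_prop
  have hc2 : ∀ m n : ℕ, Continuous fun y : ℝ =>
      a m * a n / 2 * ((1 - |y - c|) * Real.cos ((γ m - γ n) * y + (β m - β n)) +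
        (1 - |y - c|) * Real.cos ((γ m + γ n) * y + (β m + β n))) := fun m n =>
    continuous_const.mul ((hcont _ _).add (hcont _ _))
  rw [intervalIntegral.integral_congr (g := fun y => ∑ m ∈ s, ∑ n ∈ s,
      a m * a n / 2 * ((1 - |y - c|) * Real.cos ((γ m - γ n) * y + (β m - β n)) +
        (1 - |y - c|) * Real.cos ((γ m + γ n) * y + (β m + β n)))) (fun y _ => e y)]
  rw [intervalIntegral.integral_finsetSum fun m _ =>
    (continuous_finsetSum _ fun n _ => hc2 m n).intervalIntegrable _ _]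
  refine Finset.sum_congr rfl fun m _ => ?_
  rw [intervalIntegral.integral_finsetSum fun n _ => (hc2 m n).intervalIntegrable _ _]
  refine Finset.sum_congr rfl fun n _ => ?_
  rw [intervalIntegral.integral_const_mul, intervalIntegral.integral_add
    ((hcont _ _).intervalIntegrable _ _) ((hcont _ _).intervalIntegrable _ _)]
  rfl

lemma step3 (hTRI : P_TRI) (a β γ : ℕ → ℝ) (ha : ∀ n, 0 ≤ a n) (hγ : ∀ n, 0 ≤ γ n) (c : ℝ)
    (m n : ℕ) : a m * a n / 2 * (JJ c (γ m - γ n) (β m - β n) + JJ c (γ m + γ n) (β m + β n)) ≤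
      a m ^ 2 / 2 * (5 / (1 + (γ n - γ m) ^ 2)) + a n ^ 2 / 2 * (5 / (1 + (γ m - γ n) ^ 2)) := by
  have h1 : JJ c (γ m - γ n) (β m - β n) ≤ 5 / (1 + (γ m - γ n) ^ 2) :=
    (le_abs_self _).trans (hTRI c (γ m - γ n) (β m - β n))
  have h2 : JJ c (γ m + γ n) (β m + β n) ≤ 5 / (1 + (γ m + γ n) ^ 2) :=
    (le_abs_self _).trans (hTRI c (γ m + γ n) (β m + β n))
  have hmn := mul_nonneg (hγ m) (hγ n)
  have h3 : 5 / (1 + (γ m + γ n) ^ 2) ≤ 5 / (1 + (γ m - γ n) ^ 2) := by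
    refine div_le_div_of_nonneg_left (by norm_num) (by positivity) ?_
    linarith only [hmn]
  have e1 : (γ n - γ m) ^ 2 = (γ m - γ n) ^ 2 := by ring
  rw [e1]
  have hq : 0 ≤ 5 / (1 + (γ m - γ n) ^ 2) := by positivity
  have h4 : JJ c (γ m - γ n) (β m - β n) + JJ c (γ m + γ n) (β m + β n) ≤
      2 * (5 / (1 + (γ m - γ n) ^ 2)) := by linarith only [h1, h2, h3]
  have h5 : 0 ≤ a m * a n / 2 := div_nonneg (mul_nonneg (ha m) (ha n)) (by norm_num)
  have h6 := mul_le_mul_of_nonneg_left h4 h5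
  have h7 := mul_nonneg (sq_nonneg (a m - a n)) hq
  linarith only [h6, h7]

lemma step4 (a γ : ℕ → ℝ) (s : Finset ℕ) :
    ∑ m ∈ s, ∑ n ∈ s,
      (a m ^ 2 / 2 * (5 / (1 + (γ n - γ m) ^ 2)) + a n ^ 2 / 2 * (5 / (1 + (γ m - γ n) ^ 2))) =
    ∑ n ∈ s, a n ^ 2 * ∑ m ∈ s, 5 / (1 + (γ m - γ n) ^ 2) := by
  simp_rw [Finset.sum_add_distrib]
  rw [Finset.sum_comm (s := s) (t := s)
    (f := fun m n => a n ^ 2 / 2 * (5 / (1 + (γ m - γ n) ^ 2))), ← Finset.sum_add_distrib]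
  refine Finset.sum_congr rfl fun n _ => ?_
  rw [← Finset.sum_add_distrib, Finset.mul_sum]
  refine Finset.sum_congr rfl fun m _ => ?_
  ring

/-- **L2B** -/
theorem T_L2B (hTRI : P_TRI) : P_L2B := by
  intro a β γ C ha hγ _ hcnt T N M
  have h1 := step1 (fun y => ∑ n ∈ Ico N M, wv a β γ n y) (F_cont a β γ (Ico N M)) T
  refine h1.trans ?_
  have h2 := step2 a β γ (Ico N M) (T + 1 / 2)
  have h3 : ∑ m ∈ Ico N M, ∑ n ∈ Ico N M, a m * a n / 2 *
        (JJ (T + 1 / 2) (γ m - γ n) (β m - β n) + JJ (T + 1 / 2) (γ m + γ n) (β m + β n)) ≤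
      ∑ n ∈ Ico N M, a n ^ 2 * ∑ m ∈ Ico N M, 5 / (1 + (γ m - γ n) ^ 2) := by
    rw [← step4]
    exact Finset.sum_le_sum fun m _ => Finset.sum_le_sum fun n _ =>
      step3 hTRI a β γ ha hγ (T + 1 / 2) m n
  have h4 : ∑ n ∈ Ico N M, a n ^ 2 * ∑ m ∈ Ico N M, 5 / (1 + (γ m - γ n) ^ 2) ≤
      C * ∑ n ∈ Ico N M, a n ^ 2 * Real.log ((n : ℝ) + 2) := by
    rw [Finset.mul_sum]
    refine Finset.sum_le_sum fun n _ => ?_
    have h5 := mul_le_mul_of_nonneg_left (hcnt n (Ico N M)) (sq_nonneg (a n))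
    linarith only [h5]
  have h6 := h2.le.trans (h3.trans h4)
  have h7 := mul_le_mul_of_nonneg_left h6 (zero_le_two (α := ℝ))
  rw [← mul_assoc] at h7
  exact h7

end Pool.Agent.H176.FP
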